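import Mathlib
import Pool.Agent.TH562.S3.Every
import Pool.Agent.TH562.S2.Final
import Pool.Agent.TH841.NF.Tm

set_option autoImplicit false

namespace Pool.Agent.Results.MP_1a91b9_nt.EigenspacesEveryInterval

/-- the curve `y² = (x - e₁ t) (x - e₂ t) (x - e₃ t)` over `K`, the quadratic twist by `t` of
`y² = (x - e₁) (x - e₂) (x - e₃)` -/
def twist (K : Type) [Field K] (e₁ e₂ e₃ t : ℤ) : WeierstrassCurve K where
  a₁ := 0
  a₂ := ((-(e₁ + e₂ + e₃) * t : ℤ) : K)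
  a₃ := 0
  a₄ := (((e₁ * e₂ + e₁ * e₃ + e₂ * e₃) * t ^ 2 : ℤ) : K)
  a₆ := ((-(e₁ * e₂ * e₃) * t ^ 3 : ℤ) : K)

theorem crv_eq (e₁ e₂ e₃ t : ℤ) :
    Pool.Agent.H918R3.crv ((e₁ : ℚ) * (t : ℚ)) ((e₂ : ℚ) * (t : ℚ)) ((e₃ : ℚ) * (t : ℚ)) =
      twist ℚ e₁ e₂ e₃ t := by
  unfold Pool.Agent.H918R3.crv twist
  congr 1 <;> push_cast <;> ring

theorem pickf {e₁ e₂ e₃ f₁ f₂ f₃ s : ℤ} (h12 : e₁ ≠ e₂) (h13 : e₁ ≠ e₃) (h23 : e₂ ≠ e₃)
    (k12 : f₁ ≠ f₂) (k13 : f₁ ≠ f₃) (k23 : f₂ ≠ f₃) (hs : s ≠ 0) :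
    ∃ k₁ k₂ k₃ : ℤ, k₁ ≠ k₂ ∧ k₁ ≠ k₃ ∧ k₂ ≠ k₃ ∧
      (∀ t : ℤ, twist ℚ k₁ k₂ k₃ t = twist ℚ f₁ f₂ f₃ t) ∧
      0 < s * ((e₂ - e₃) * (k₁ - k₂) - (e₁ - e₂) * (k₂ - k₃)) := by
  have hper : ∀ k₁ k₂ k₃ : ℤ, k₁ + k₂ + k₃ = f₁ + f₂ + f₃ →
      k₁ * k₂ + k₁ * k₃ + k₂ * k₃ = f₁ * f₂ + f₁ * f₃ + f₂ * f₃ →
      k₁ * k₂ * k₃ = f₁ * f₂ * f₃ → ∀ t : ℤ, twist ℚ k₁ k₂ k₃ t = twist ℚ f₁ f₂ f₃ t := by
    intro k₁ k₂ k₃ h1 h2 h3 t
    unfold twist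
    rw [h1, h2, h3]
  obtain ⟨x', y', z', h, h1, h2⟩ := Pool.Agent.TH562.S2.pick (α := e₁ - e₂) (β := e₂ - e₃)
    (γ := e₃ - e₁) (x := f₁ - f₂) (y := f₂ - f₃) (z := f₃ - f₁) (sub_ne_zero.2 h12)
    (sub_ne_zero.2 h23) (sub_ne_zero.2 h13.symm) (by ring) (sub_ne_zero.2 k12) (sub_ne_zero.2 k23)
    (sub_ne_zero.2 k13.symm) (by ring) hs
  rcases h with ⟨rfl, rfl, rfl⟩ | ⟨rfl, rfl, rfl⟩ | ⟨rfl, rfl, rfl⟩ | ⟨rfl, rfl, rfl⟩ |
    ⟨rfl, rfl, rfl⟩ | ⟨rfl, rfl, rfl⟩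
  · exact ⟨f₁, f₂, f₃, k12, k13, k23, hper _ _ _ rfl rfl rfl, h1⟩
  · exact ⟨f₂, f₃, f₁, k23, k12.symm, k13.symm, hper _ _ _ (by ring) (by ring) (by ring), h1⟩
  · exact ⟨f₃, f₁, f₂, k13.symm, k23.symm, k12, hper _ _ _ (by ring) (by ring) (by ring), h1⟩
  · refine ⟨f₂, f₁, f₃, k12.symm, k23, k13, hper _ _ _ (by ring) (by ring) (by ring), ?_⟩
    convert h1 using 2; ring
  · refine ⟨f₁, f₃, f₂, k13, k12, k23.symm, hper _ _ _ (by ring) (by ring) (by ring), ?_⟩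
    convert h1 using 2; ring
  · refine ⟨f₃, f₂, f₁, k23.symm, k13.symm, k12.symm, hper _ _ _ (by ring) (by ring) (by ring), ?_⟩
    convert h1 using 2; ring

section field

open Pool.Agent.TH841.NF WeierstrassCurve

/-- the scaling map on points, a homomorphism of groups -/
noncomputable def hom {F K : Type} [Field F] [Field K] [DecidableEq F] [DecidableEq K]
    {ι : F →+* K} {u : K} {W : WeierstrassCurve F} {W' : WeierstrassCurve K} (S : Sc ι u W W') :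
    W.toAffine.Point →+ W'.toAffine.Point where
  toFun := tF S
  map_zero' := rfl
  map_add' := tF_add S

theorem hom_some {F K : Type} [Field F] [Field K] [DecidableEq F] [DecidableEq K]
    {ι : F →+* K} {u : K} {W : WeierstrassCurve F} {W' : WeierstrassCurve K} (S : Sc ι u W W')
    (x y : F) (h : W.toAffine.Nonsingular x y) : hom S (Affine.Point.some x y h) =
      .some (ι x * u ^ 2) (ι y * u ^ 3) ((ns_iff S x y).2 h) := rfl

theorem hom_inj {F K : Type} [Field F] [Field K] [DecidableEq F] [DecidableEq K]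
    {ι : F →+* K} {u : K} {W : WeierstrassCurve F} {W' : WeierstrassCurve K} (S : Sc ι u W W')
    {P : W.toAffine.Point} (h : hom S P = 0) : P = 0 := by
  rcases P with _ | ⟨x, y, hns⟩
  · rfl
  · exact absurd h (by rintro ⟨⟩)

theorem sc_base {K : Type} [Field K] [CharZero K] (e₁ e₂ e₃ t : ℤ) :
    Sc (Rat.castHom K) 1 (twist ℚ e₁ e₂ e₃ t) (twist K e₁ e₂ e₃ t) := by
  refine ⟨one_ne_zero, ?_, ?_, ?_, ?_, ?_⟩ <;> simp [twist]

theorem sc_tw {K : Type} [Field K] [CharZero K] (e₁ e₂ e₃ t : ℤ) {D : ℤ} (hD : D ≠ 0) {r : K}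
    (hr : r ^ 2 = D) :
    Sc (Rat.castHom K) (r⁻¹) (twist ℚ (D * e₁) (D * e₂) (D * e₃) t) (twist K e₁ e₂ e₃ t) := by
  have hr0 : r ≠ 0 := by
    rintro rfl
    rw [zero_pow two_ne_zero] at hr
    exact hD (by exact_mod_cast hr.symm)
  have hD' : (D : K) ≠ 0 := by exact_mod_cast hD
  have h2 : (r⁻¹) ^ 2 = (D : K)⁻¹ := by rw [inv_pow, hr]
  have h4 : (r⁻¹) ^ 4 = (D : K)⁻¹ ^ 2 := by rw [← h2]; ring
  have h6 : (r⁻¹) ^ 6 = (D : K)⁻¹ ^ 3 := by rw [← h2]; ring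
  refine ⟨inv_ne_zero hr0, ?_, ?_, ?_, ?_, ?_⟩
  · simp [twist]
  · rw [h2]; simp [twist]; field_simp
  · simp [twist]
  · rw [h4]; simp [twist]; field_simp
  · rw [h6]; simp [twist]; field_simp

theorem indep {K : Type} [Field K] [DecidableEq K] [CharZero K] {e₁ e₂ e₃ t D : ℤ}
    (hD : ¬ IsSquare D) {r : K} (hr : r ^ 2 = D)
    {P : (twist ℚ e₁ e₂ e₃ t).toAffine.Point} (hP : ∀ m : ℤ, m • P = 0 → m = 0)
    {R : (twist ℚ (D * e₁) (D * e₂) (D * e₃) t).toAffine.Point}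
    (hR : ∀ m : ℤ, m • R = 0 → m = 0) :
    ∃ P' R' : (twist K e₁ e₂ e₃ t).toAffine.Point,
      (∃ (x y : ℚ) (h : (twist K e₁ e₂ e₃ t).toAffine.Nonsingular (x : K) (y : K)),
        P' = .some _ _ h) ∧
      (∃ (x y : ℚ) (h : (twist K e₁ e₂ e₃ t).toAffine.Nonsingular (x : K) (y * r : K)),
        R' = .some _ _ h) ∧
      ∀ m n : ℤ, m • P' + n • R' = 0 → m = 0 ∧ n = 0 := by
  have hD0 : D ≠ 0 := by
    rintro rfl
    exact hD ⟨0, by norm_num⟩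
  have hDK : (D : K) ≠ 0 := by exact_mod_cast hD0
  have hr0 : r ≠ 0 := by
    rintro rfl
    rw [zero_pow two_ne_zero] at hr
    exact hDK hr.symm
  have hinv : r⁻¹ ^ 3 = (D : K)⁻¹ ^ 2 * r := by
    rw [← hr]; field_simp
  have hinv2 : r⁻¹ ^ 2 = (D : K)⁻¹ := by rw [inv_pow, hr]
  have S1 := sc_base (K := K) e₁ e₂ e₃ t
  have S2 := sc_tw (K := K) e₁ e₂ e₃ t hD0 hr
  refine ⟨hom S1 P, hom S2 R, ?_, ?_, ?_⟩
  · rcases P with _ | ⟨x, y, hns⟩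
    · exact absurd (hP 1 (by rw [one_zsmul]; rfl)) one_ne_zero
    · have h1 := (ns_iff S1 x y).2 hns
      have e1 : (Rat.castHom K) x * 1 ^ 2 = (x : K) := by simp
      have e2 : (Rat.castHom K) y * 1 ^ 3 = (y : K) := by simp
      refine ⟨x, y, by rw [e1, e2] at h1; exact h1, ?_⟩
      rw [hom_some, Affine.Point.some.injEq]
      exact ⟨e1, e2⟩
  · rcases R with _ | ⟨x, y, hns⟩
    · exact absurd (hR 1 (by rw [one_zsmul]; rfl)) one_ne_zero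
    · have h1 := (ns_iff S2 x y).2 hns
      have e1 : (Rat.castHom K) x * r⁻¹ ^ 2 = ((x * (D : ℚ)⁻¹ : ℚ) : K) := by
        rw [hinv2]; simp
      have e2 : (Rat.castHom K) y * r⁻¹ ^ 3 = ((y * (D : ℚ)⁻¹ ^ 2 : ℚ) : K) * r := by
        rw [hinv]; push_cast; simp; ring
      refine ⟨x * (D : ℚ)⁻¹, y * (D : ℚ)⁻¹ ^ 2, by rw [e1, e2] at h1; exact h1, ?_⟩
      rw [hom_some, Affine.Point.some.injEq]
      exact ⟨e1, e2⟩
  · intro m n hmn
    rw [← map_zsmul, ← map_zsmul] at hmn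
    have key : m • P = 0 ∨ (m • P) + (m • P) = 0 := by
      rcases hmP : m • P with _ | ⟨x, y, hns⟩
      · exact Or.inl rfl
      right
      have hneg : hom S1 (m • P) = hom S2 (-(n • R)) := by
        rw [map_neg]
        exact eq_neg_of_add_eq_zero_left hmn
      rcases hnR : -(n • R) with _ | ⟨x', y', hns'⟩
      · rw [hmP, hnR] at hneg
        exact absurd hneg (by rintro ⟨⟩)
      · rw [hmP, hnR] at hneg
        have h3 := hneg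
        rw [hom_some, hom_some, Affine.Point.some.injEq] at h3
        have h4 : (y : K) = (y' : K) * ((D : K)⁻¹ ^ 2 * r) := by
          have := h3.2
          rw [hinv] at this
          simpa using this
        have hy : y = 0 := by
          by_contra hy0
          have hy'0 : y' ≠ 0 := by
            rintro rfl
            rw [Rat.cast_zero, zero_mul] at h4
            exact hy0 (by exact_mod_cast h4)
          have h5 : r = ((y / y' * (D : ℚ) ^ 2 : ℚ) : K) := by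
            have hy'K : (y' : K) ≠ 0 := by exact_mod_cast hy'0
            push_cast
            rw [h4]
            field_simp
          have h6 : ((D : ℚ) : K) = (((y / y' * (D : ℚ) ^ 2) ^ 2 : ℚ) : K) := by
            have : ((D : ℚ) : K) = r ^ 2 := by rw [hr]; norm_cast
            rw [this, h5]; norm_cast
          have h7 : (D : ℚ) = (y / y' * (D : ℚ) ^ 2) ^ 2 := by exact_mod_cast h6
          have h8 : IsSquare (D : ℚ) := ⟨y / y' * (D : ℚ) ^ 2, by rw [← sq]; exact h7⟩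
          exact hD (Rat.isSquare_intCast_iff.1 h8)
        subst hy
        rw [Affine.Point.add_of_Y_eq rfl]
        simp [Affine.negY, twist]
    have hm : m = 0 := by
      rcases key with h | h
      · exact hP m h
      · have : (m + m) • P = 0 := by rw [add_zsmul]; exact h
        have := hP _ this
        omega
    subst hm
    rw [zero_zsmul, map_zero, zero_add] at hmn
    exact ⟨rfl, hR n (hom_inj S2 hmn)⟩

end field

theorem result (e₁ e₂ e₃ : ℤ) (h12 : e₁ ≠ e₂) (h13 : e₁ ≠ e₃) (h23 : e₂ ≠ e₃)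
    (D : ℤ) (hD : ¬ IsSquare D) (ε : ℤ) (hε : ε = 1 ∨ ε = -1) :
    ∃ h : ℕ, Squarefree h ∧ ∀ M : ℕ, 0 < M → ∃ C : ℝ, 0 < C ∧ ∀ X : ℝ, 2 ≤ X → ∃ d : ℕ,
      X ≤ ((h * d : ℕ) : ℝ) ∧
      ((h * d : ℕ) : ℝ) ≤ X + C * X ^ ((5 : ℝ) / 6) * (Real.log X) ^ 4 ∧
      Squarefree (h * d) ∧ d ≡ 1 [MOD M] ∧
      ∀ (K : Type) [Field K] [DecidableEq K] [CharZero K] (r : K), r ^ 2 = D →
        ∃ P R : (twist K e₁ e₂ e₃ (ε * (h * d : ℕ))).toAffine.Point,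
          (∃ (x y : ℚ) (hn : (twist K e₁ e₂ e₃ (ε * (h * d : ℕ))).toAffine.Nonsingular
            (x : K) (y : K)), P = .some _ _ hn) ∧
          (∃ (x y : ℚ) (hn : (twist K e₁ e₂ e₃ (ε * (h * d : ℕ))).toAffine.Nonsingular
            (x : K) (y * r : K)), R = .some _ _ hn) ∧
          ∀ m n : ℤ, m • P + n • R = 0 → m = 0 ∧ n = 0 := by
  have hD0 : D ≠ 0 := by
    rintro rfl
    exact hD ⟨0, by norm_num⟩
  have hn : (e₁ - e₂) * (e₂ - e₃) * (e₃ - e₁) ≠ 0 :=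
    mul_ne_zero (mul_ne_zero (sub_ne_zero.2 h12) (sub_ne_zero.2 h23)) (sub_ne_zero.2 h13.symm)
  have hε0 : ε ≠ 0 := by
    rcases hε with rfl | rfl <;> norm_num
  obtain ⟨k₁, k₂, k₃, l12, l13, l23, hper, hpos⟩ := pickf (f₁ := D * e₁) (f₂ := D * e₂)
    (f₃ := D * e₃) h12 h13 h23 (fun h => h12 (mul_left_cancel₀ hD0 h))
    (fun h => h13 (mul_left_cancel₀ hD0 h)) (fun h => h23 (mul_left_cancel₀ hD0 h))
    (s := ε * ((e₁ - e₂) * (e₂ - e₃) * (e₃ - e₁))) (mul_ne_zero hε0 hn)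
  obtain ⟨N, hN⟩ : ∃ N : ℤ, N = (e₁ - e₂) * (e₂ - e₃) * (e₃ - e₁) *
      ((e₂ - e₃) * (k₁ - k₂) - (e₁ - e₂) * (k₂ - k₃)) := ⟨_, rfl⟩
  have hpos' : 0 < ε * N := by
    rw [hN, ← mul_assoc]; exact hpos
  have hN0 : N ≠ 0 := by
    rintro h0
    rw [h0, mul_zero] at hpos'
    exact absurd hpos' (lt_irrefl _)
  have hsign : N.sign = ε := by
    rcases hε with rfl | rfl
    · exact Int.sign_eq_one_of_pos (by linarith)
    · exact Int.sign_eq_neg_one_of_neg (by linarith)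
  obtain ⟨h, g, hhg, hh⟩ := Nat.sq_mul_squarefree N.natAbs
  have hhg' : h * g ^ 2 = N.natAbs := by
    rw [← hhg]; ring
  refine ⟨h, hh, fun M hM => ?_⟩
  obtain ⟨C, hC, hX⟩ := Pool.Agent.TH562.S3.main h12 h13 h23 l12 l13 l23 (hN ▸ hN0) hh
    (hhg'.trans (by rw [hN])) hM
  refine ⟨C, hC, fun X hX2 => ?_⟩
  obtain ⟨d, hd1, hd2, hd3, hd4, hd5, hd6⟩ := hX X hX2
  refine ⟨d, hd1, hd2, hd3, hd4, fun K _ _ _ r hr => ?_⟩
  rw [← hN, hsign] at hd5 hd6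
  have h5 : ∃ P : (Pool.Agent.H918R3.crv _ _ _).toAffine.Point, ∀ m : ℤ, m • P = 0 → m = 0 := hd5
  have h6 : ∃ P : (Pool.Agent.H918R3.crv _ _ _).toAffine.Point, ∀ m : ℤ, m • P = 0 → m = 0 := hd6
  rw [crv_eq] at h5 h6
  rw [hper] at h6
  obtain ⟨P, hP⟩ := h5
  obtain ⟨R, hR⟩ := h6
  obtain ⟨P', R', a1, a2, a3⟩ := indep (K := K) hD hr hP hR
  exact ⟨P', R', a1, a2, a3⟩

end Pool.Agent.Results.MP_1a91b9_nt.EigenspacesEveryInterval
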