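import Pool.Agent.TH942.Lead
import Pool.Agent.TH129.NFC.FinPow
import Pool.Agent.TH129.NFC.Mero
import Pool.Agent.TH129.NFC.Pts

/-!
# The leading-term formula over number fields without rank, regulator and torsion

Let `K` be a number field and `E : y² = x³ + a x + b` an elliptic curve over `K`, and let `F` be any
continuation of its Hasse-Weil `L`-series to `s = 1` along the real axis (meromorphic at the points of
`[1, 2]`). Let `h(P)` be the logarithmic height relative to `K` of the `x`-coordinate of `P` (`h(O) = 0`) and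
`Z(s) = ∑_P e^{-s h(P)}` the sum over all `K`-rational points. Let `Reg` be the classical regulator (height
relative to `K`), `T` the number of `K`-rational torsion points and `r` the rank. It is shown that for every
real `A > 0` the following are equivalent:

* `ord_{s=1} F = r` and the leading coefficient of `F` at `1` is `A · Reg / T²`;
* `Z(πs)² F(1 + s) → A` as `s → 0+`;
* `exp (S_c(X)) / N(X)² → e^{-rΛ(c)} / (V_r² A)` as `X → ∞`, for some or for all `c > π/2`, where
  `N(X)` is the number of `K`-rational points with `h(P) ≤ log X`, `V_r` is the volume of the unit ball of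
  `ℝ^r`, and

  `S_c(X) = ∑_{q_v^k ≤ e^X} -(α_v^k + β_v^k) / (k q_v^k) · exp (icu) / Γ(1 + u)`, `u = k log q_v / log X`,

  is a finite sum over the prime powers of `K` (`α_v`, `β_v` the eigenvalues of Frobenius; for good `v` the
  numerator is `#E(𝔽_{q_v^k}) - q_v^k - 1`).

The conjecture of Birch and Swinnerton-Dyer in Tate's form (rank and leading term) is the first statement
with `A = Ω |Δ_K|^{-1/2} #Ш ∏ c_v`. So it says that `lim_{s → 0+} Z(πs)² L(1 + s)` is this number, the values
`0` and `∞` being excluded at the same time: rank, regulator and torsion are absorbed by the Dirichlet series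
of the naive heights of the `K`-rational points. In the third form both sides are, for every `X`, finite
computations: the numbers of points of bounded height and the numbers of points over the residue fields.

Proof. Mordell, Weil, Néron: `#{h(P) ≤ B} ~ T V_r B^{r/2} / √Reg` and an Abelian theorem for `Z`
(imported), the rotated law over number fields (starting files) and, new, the truncation of the sums:
all but finitely many places are good for Mathlib's local minimal models and satisfy Hasse's bound, so the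
sum of the absolute values `|α_v^k + β_v^k| k^{-1} q_v^{-k(1 + σ)}` converges for `σ = 5/8`, and the
weights at `u` are `O(exp (X^{3/4}) q_v^{-3k/4})`.
-/

set_option autoImplicit false

open Filter Topology NumberField IsDedekindDomain IsLocalRing Classical

namespace Pool.Agent.Results.MP_1a91b9_nt.LeadingTermLaw

section

variable {K : Type} [Field K] [NumberField K]

/-- The curve `y² = x³ + a x + b`. -/
def curve (a b : K) : WeierstrassCurve K := { a₁ := 0, a₂ := 0, a₃ := 0, a₄ := a, a₆ := b }

/-- The group of `K`-rational points of `y² = x³ + a x + b`. -/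
abbrev Pts (a b : K) : Type := WeierstrassCurve.Affine.Point (curve a b).toAffine

/-- The rank. -/
noncomputable def rank (a b : K) : ℕ := Module.finrank ℤ (Pts a b)

/-- The logarithmic height, relative to `K`, of the `x`-coordinate (`0` at infinity). -/
noncomputable def ht {a b : K} : Pts a b → ℝ
  | .zero => 0
  | .some x _ _ => Height.logHeight₁ x

/-- The canonical quadratic function `q(P) = lim h(2^k P) / 4^k`. -/
noncomputable def canHt {a b : K} (P : Pts a b) : ℝ :=
  limUnder atTop (fun k : ℕ => ht ((2 ^ k : ℕ) • P) / 4 ^ k)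

/-- `P_1, …, P_r` is a basis of the group of `K`-rational points modulo torsion: every point is, in a
unique way, an integral combination of the `P_i` plus a point of finite order. -/
def IsMWBasis {a b : K} {r : ℕ} (g : Fin r → Pts a b) : Prop :=
  ∀ P : Pts a b, ∃! n : Fin r → ℤ, IsOfFinAddOrder (P - ∑ i, n i • g i)

/-- The regulator: the determinant of the height pairing `(q(P + Q) - q(P) - q(Q)) / 2`. -/
noncomputable def regulator {a b : K} {r : ℕ} (g : Fin r → Pts a b) : ℝ :=
  Matrix.det (Matrix.of fun i j => (canHt (g i + g j) - canHt (g i) - canHt (g j)) / 2)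

/-- The number of `K`-rational torsion points. -/
noncomputable def tors (a b : K) : ℕ := Nat.card {t : Pts a b // IsOfFinAddOrder t}

/-- `Z(s)`: the sum over all `K`-rational points of `e^{-s h(P)}`. -/
noncomputable def heightZeta (a b : K) (s : ℝ) : ℝ := ∑' P : Pts a b, Real.exp (-(s * ht P))

/-- `N(X)`: the number of `K`-rational points with `h(P) ≤ log X`. -/
noncomputable def pointsUpTo (a b : K) (X : ℝ) : ℕ := Nat.card {P : Pts a b // ht P ≤ Real.log X}

/-- The volume of the unit ball of `ℝ^r`. -/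
noncomputable def ballVol (r : ℕ) : ℝ := √Real.pi ^ r / Real.Gamma (r / 2 + 1)

/-- `a_v`: it is `q_v + 1 - #Ẽ(k_v)` if the minimal model of `E` at `v` has good reduction, and
`1`, `-1`, `0` for split multiplicative, non-split multiplicative and additive reduction. -/
noncomputable def aCoef (E : WeierstrassCurve K) (v : HeightOneSpectrum (𝓞 K)) : ℤ :=
  if ((E.baseChange (v.adicCompletion K)).minimal (v.adicCompletionIntegers K)).HasGoodReduction
      (v.adicCompletionIntegers K) then
    (Nat.card (ResidueField (v.adicCompletionIntegers K)) : ℤ) + 1 -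
      (Nat.card (((E.baseChange (v.adicCompletion K)).minimal
        (v.adicCompletionIntegers K)).reduction (v.adicCompletionIntegers K)).toAffine.Point)
  else if ((E.baseChange (v.adicCompletion K)).minimal
      (v.adicCompletionIntegers K)).HasSplitMultiplicativeReduction (v.adicCompletionIntegers K)
    then 1
  else if ((E.baseChange (v.adicCompletion K)).minimal
      (v.adicCompletionIntegers K)).HasMultiplicativeReduction (v.adicCompletionIntegers K) then -1
  else 0

/-- `e_v`: it is `q_v` for good reduction and `0` otherwise. -/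
noncomputable def eCoef (E : WeierstrassCurve K) (v : HeightOneSpectrum (𝓞 K)) : ℤ :=
  if ((E.baseChange (v.adicCompletion K)).minimal (v.adicCompletionIntegers K)).HasGoodReduction
      (v.adicCompletionIntegers K) then
    (Nat.card (ResidueField (v.adicCompletionIntegers K)) : ℤ) else 0

/-- `α^n + β^n`, where `α + β = a` and `α β = e`. -/
def pw (a e : ℤ) : ℕ → ℤ
  | 0 => 2
  | 1 => a
  | (n + 2) => a * pw a e (n + 1) - e * pw a e n

/-- The term of `S_c(X)` for the prime `v = x.1` and the exponent `k = x.2 + 1`, `T = log X`. -/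
noncomputable def term (E : WeierstrassCurve K) (c T : ℝ) (x : HeightOneSpectrum (𝓞 K) × ℕ) : ℂ :=
  ((-(pw (aCoef E x.1) (eCoef E x.1) (x.2 + 1) : ℤ) /
    ((x.2 + 1) * ((Ideal.absNorm x.1.asIdeal : ℕ) : ℝ) ^ (x.2 + 1) *
      Real.Gamma (1 + (x.2 + 1) * Real.log ((Ideal.absNorm x.1.asIdeal : ℕ) : ℝ) / T)) : ℝ) : ℂ) *
    Complex.exp ((c * ((x.2 + 1) * Real.log ((Ideal.absNorm x.1.asIdeal : ℕ) : ℝ) / T) : ℝ) *
      Complex.I)

/-- `S_c(X)`: the finite sum over the prime powers `q_v^k ≤ e^X` (`k = x.2 + 1`). -/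
noncomputable def S (E : WeierstrassCurve K) (c X : ℝ) : ℂ :=
  ∑ᶠ x ∈ {x : HeightOneSpectrum (𝓞 K) × ℕ |
    ((Ideal.absNorm x.1.asIdeal : ℕ) : ℝ) ^ (x.2 + 1) ≤ Real.exp X}, term E c (Real.log X) x

/-- `Λ(c) = ∫_0^∞ (e^{-t} - e^{ict} / Γ(1 + t)) dt / t`. -/
noncomputable def Lam (c : ℝ) : ℂ := ∫ t in Set.Ioi (0 : ℝ),
  (Complex.exp (-(t : ℂ)) - Complex.exp ((c * t : ℝ) * Complex.I) *
    ((Real.Gamma (1 + t))⁻¹ : ℝ)) / t

theorem pw_eq (x y : ℤ) : ∀ n : ℕ, pw x y n = W189.LC.psum x y n
  | 0 => rfl
  | 1 => rfl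
  | n + 2 => by rw [pw, W189.LC.psum, pw_eq x y (n + 1), pw_eq x y n]

theorem term_eq (E : WeierstrassCurve K) (c T : ℝ)
    (x : HeightOneSpectrum (𝓞 K) × ℕ) : term E c T x = W187.UR.rTerm E c T x := by
  unfold term W187.UR.rTerm W189.NF.bsTerm
  rw [pw_eq]
  rfl

theorem S_eq (E : WeierstrassCurve K) (c X : ℝ) : S E c X = TH129.NFC.nfFin E c X :=
  finsum_mem_congr rfl fun x _ => term_eq E c _ x

theorem ht_eq {a b : K} (P : Pts a b) : ht P = TH942.sht (K := K) (a := a) (b := b) P := by
  cases P with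
  | zero => exact TH942.sht_zero.symm
  | some x y h => exact (TH129.NFC.sht_some' h).symm

end

/-- **The leading-term formula over number fields without rank, regulator and torsion.** -/
theorem result (K : Type) [Field K] [NumberField K] (a b : K) (hΔ : 4 * a ^ 3 + 27 * b ^ 2 ≠ 0)
    (F : ℂ → ℂ) (hmer : ∀ x : ℝ, 1 ≤ x → x ≤ 2 → MeromorphicAt F (x : ℂ))
    (hF : ∀ s : ℂ, 2 < s.re → F s = (curve a b).LSeries s) :
    (∀ s : ℝ, 0 < s → Summable fun P : Pts a b => Real.exp (-(s * ht P))) ∧
    (∃ g : Fin (rank a b) → Pts a b, IsMWBasis g) ∧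
    ∀ g : Fin (rank a b) → Pts a b, IsMWBasis g → 0 < regulator g ∧ ∀ A : ℝ, 0 < A →
      List.TFAE [
        meromorphicOrderAt F 1 = ((rank a b : ℤ) : WithTop ℤ) ∧
          meromorphicTrailingCoeffAt F 1 = ((A * regulator g / tors a b ^ 2 : ℝ) : ℂ),
        Tendsto (fun s : ℝ => (heightZeta a b (Real.pi * s) : ℂ) ^ 2 * F (1 + s)) (𝓝[>] 0)
          (𝓝 (A : ℂ)),
        ∃ c : ℝ, Real.pi / 2 < c ∧
          Tendsto (fun X : ℝ => Complex.exp (S (curve a b) c X) / (pointsUpTo a b X : ℂ) ^ 2) atTop
            (𝓝 (Complex.exp (-(rank a b * Lam c)) / (ballVol (rank a b) ^ 2 * A : ℝ))),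
        ∀ c : ℝ, Real.pi / 2 < c →
          Tendsto (fun X : ℝ => Complex.exp (S (curve a b) c X) / (pointsUpTo a b X : ℂ) ^ 2) atTop
            (𝓝 (Complex.exp (-(rank a b * Lam c)) / (ballVol (rank a b) ^ 2 * A : ℝ)))] := by
  have hDc : (curve a b).Δ ≠ 0 := by
    have h1 : (curve a b).Δ = -16 * (4 * a ^ 3 + 27 * b ^ 2) := TH942.sw_Δ a b
    rw [h1]
    exact mul_ne_zero (by norm_num) hΔ
  have hcont : W189.NF.IsCont (curve a b) F := ⟨hmer, hF⟩
  obtain ⟨q, C, hq0, hq, hqh, hqlim, hcount⟩ := TH942.neron hΔ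
  have hfin : ∀ B : ℝ, {P : Pts a b | ht P ≤ B}.Finite := by
    intro B
    simp only [ht_eq]
    exact TH942.sfinite_ht B
  have h0 : ∀ P : Pts a b, 0 ≤ ht P := fun P => by rw [ht_eq]; exact TH942.sht_nonneg P
  have hcan : ∀ P : Pts a b, canHt P = q P := by
    intro P
    unfold canHt
    apply Tendsto.limUnder_eq
    exact (hqlim P).congr fun k => congrArg (fun z : ℝ => z / 4 ^ k) (ht_eq _).symm
  have hcbl : Countable (Pts a b) := by
    have h1 : (Set.univ : Set (Pts a b)) = ⋃ n : ℕ, {P | ht P ≤ n} := by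
      ext P
      simp only [Set.mem_univ, Set.mem_iUnion, Set.mem_ofPred_eq, true_iff]
      exact exists_nat_ge (ht P)
    rw [← Set.countable_univ_iff, h1]
    exact Set.countable_iUnion fun n => (hfin n).countable
  set r := rank a b with hr
  -- a basis
  obtain ⟨r', g', hg'⟩ := TH942.exists_basis (TH942.sfg hΔ)
  have hr' : r = r' := by
    have := TH942.card_basis hg'
    rw [Fintype.card_fin] at this
    exact this
  have hbasis : ∃ g : Fin r → Pts a b, IsMWBasis g := by
    rw [hr']
    exact ⟨g', hg'⟩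
  -- the main limit
  have hmain : ∀ g : Fin r → Pts a b, IsMWBasis g → 0 < regulator g ∧
      Tendsto (fun B : ℝ => TH942.cnt (ht : Pts a b → ℝ) B / B ^ ((r : ℝ) / 2)) atTop
        (𝓝 (tors a b * ballVol r / √(regulator g))) := by
    intro g hg
    obtain ⟨h1, h2⟩ := hcount (Fin r) g hg
    have h3 : regulator g = (TH942.gram q g).det := by
      unfold regulator TH942.gram
      simp only [hcan]
      rfl
    rw [h3]
    refine ⟨h1, ?_⟩
    rw [Fintype.card_fin] at h2
    refine h2.congr fun B => ?_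
    unfold TH942.cnt
    simp only [ht_eq]
    rfl
  obtain ⟨g₀, hg₀⟩ := hbasis
  have hsum := (TH942.zeta_main h0 hfin (by positivity) (hmain g₀ hg₀).2).1
  refine ⟨hsum, ⟨g₀, hg₀⟩, fun g hg => ?_⟩
  obtain ⟨hreg, hlim⟩ := hmain g hg
  refine ⟨hreg, fun A hA => ?_⟩
  have hT0 : 0 < tors a b := by
    have h1 : Finite {t : Pts a b // IsOfFinAddOrder t} := by
      have h2 : {t : Pts a b | IsOfFinAddOrder t} ⊆ {P | ht P ≤ C} := by
        intro t ht'
        have h9 := TH942.q_comb q hq g t ht' 0
        simp only [Pi.zero_apply, zero_smul, Finset.sum_const_zero, zero_add, Int.cast_zero,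
          zero_mul] at h9
        have h10 := abs_le.1 (hqh t)
        simp only [Set.mem_ofPred_eq, ht_eq]
        linarith
      exact ((hfin C).subset h2).to_subtype
    have h2 : Nonempty {t : Pts a b // IsOfFinAddOrder t} := ⟨⟨0, IsOfFinAddOrder.zero⟩⟩
    exact Nat.card_pos
  have hT : (0 : ℝ) < tors a b := by exact_mod_cast hT0
  have hV : 0 < ballVol r := TH942.ballVol_pos r
  have hGam : 0 < Real.Gamma ((r : ℝ) / 2 + 1) := Real.Gamma_pos_of_pos (by positivity)
  have hpi := Real.pi_pos
  have hsr : 0 < √(regulator g) := Real.sqrt_pos.2 hreg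
  have hsr2 : √(regulator g) ^ 2 = regulator g := Real.sq_sqrt hreg.le
  set κ : ℝ := tors a b * ballVol r / √(regulator g) with hκ
  have hκ0 : 0 < κ := by positivity
  have hκ2 : κ ^ 2 = tors a b ^ 2 * ballVol r ^ 2 / regulator g := by
    rw [hκ, div_pow, mul_pow, hsr2]
  -- zeta
  have hZ : Tendsto (fun s : ℝ => (heightZeta a b (Real.pi * s) : ℝ) ^ 2 * s ^ r) (𝓝[>] 0)
      (𝓝 (tors a b ^ 2 / regulator g)) := by
    have h1 := (TH942.zeta_main h0 hfin (by positivity) hlim).2
    have h2 : Tendsto (fun s : ℝ => Real.pi * s) (𝓝[>] 0) (𝓝[>] 0) := by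
      rw [tendsto_nhdsWithin_iff]
      constructor
      · have h3 : Tendsto (fun s : ℝ => Real.pi * s) (𝓝 0) (𝓝 (Real.pi * 0)) :=
          (continuous_const.mul continuous_id).tendsto 0
        rw [mul_zero] at h3
        exact h3.mono_left nhdsWithin_le_nhds
      · filter_upwards [self_mem_nhdsWithin] with s hs
        have : (0 : ℝ) < s := hs
        show (0 : ℝ) < Real.pi * s
        positivity
    have h3 := ((h1.comp h2).pow 2).mul_const ((Real.pi ^ r)⁻¹)
    have h4 : (κ * Real.Gamma ((r : ℝ) / 2 + 1)) ^ 2 * (Real.pi ^ r)⁻¹ =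
        tors a b ^ 2 / regulator g := by
      rw [mul_pow, hκ2]
      unfold ballVol
      have h5 : (√Real.pi ^ r) ^ 2 = Real.pi ^ r := by
        rw [← pow_mul, mul_comm, pow_mul, Real.sq_sqrt hpi.le]
      rw [div_pow, h5]
      have : (0 : ℝ) < Real.pi ^ r := by positivity
      field_simp
    rw [h4] at h3
    refine h3.congr' ?_
    filter_upwards [self_mem_nhdsWithin] with s hs
    have hs0 : (0 : ℝ) < s := hs
    simp only [Function.comp_apply]
    have h6 : ((Real.pi * s) ^ ((r : ℝ) / 2)) ^ 2 = Real.pi ^ r * s ^ r := by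
      rw [← Real.rpow_natCast, ← Real.rpow_mul (by positivity)]
      have : (r : ℝ) / 2 * (2 : ℕ) = r := by push_cast; ring
      rw [this, Real.rpow_natCast, mul_pow]
    have h7 : (0 : ℝ) < Real.pi ^ r := by positivity
    rw [mul_pow, h6]
    unfold heightZeta
    field_simp
  have hZc : Tendsto (fun s : ℝ => (heightZeta a b (Real.pi * s) : ℂ) ^ 2 * (s : ℂ) ^ r) (𝓝[>] 0)
      (𝓝 ((tors a b ^ 2 / regulator g : ℝ) : ℂ)) := by
    have := (Complex.continuous_ofReal.tendsto _).comp hZ
    refine this.congr fun s => ?_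
    simp
  have hZlim0 : ((tors a b ^ 2 / regulator g : ℝ) : ℂ) ≠ 0 := by
    have : (0 : ℝ) < tors a b ^ 2 / regulator g := by positivity
    exact_mod_cast this.ne'
  -- points
  have hN : Tendsto (fun X : ℝ => (pointsUpTo a b X : ℝ) ^ 2 / Real.log X ^ r) atTop
      (𝓝 (κ ^ 2)) := by
    have h1 := (hlim.comp Real.tendsto_log_atTop).pow 2
    refine h1.congr' ?_
    filter_upwards [eventually_gt_atTop 1] with X hX
    have hl : 0 < Real.log X := Real.log_pos hX
    simp only [Function.comp_apply]
    have h6 : (Real.log X ^ ((r : ℝ) / 2)) ^ 2 = Real.log X ^ r := by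
      rw [← Real.rpow_natCast, ← Real.rpow_mul hl.le]
      have : (r : ℝ) / 2 * (2 : ℕ) = r := by push_cast; ring
      rw [this, Real.rpow_natCast]
    rw [div_pow, h6]
    rfl
  have hNc : Tendsto (fun X : ℝ => (pointsUpTo a b X : ℂ) ^ 2 / (Real.log X : ℂ) ^ r) atTop
      (𝓝 ((κ ^ 2 : ℝ) : ℂ)) := by
    have := (Complex.continuous_ofReal.tendsto _).comp hN
    refine this.congr fun s => ?_
    simp
  have hκc : ((κ ^ 2 : ℝ) : ℂ) ≠ 0 := by
    have : 0 < κ ^ 2 := by positivity
    exact_mod_cast this.ne'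
  have hNpos : ∀ᶠ X : ℝ in atTop, (pointsUpTo a b X : ℂ) ≠ 0 := by
    filter_upwards [eventually_ge_atTop 1] with X hX
    have h1 : Finite {P : Pts a b // ht P ≤ Real.log X} := (hfin _).to_subtype
    have h2 : Nonempty {P : Pts a b // ht P ≤ Real.log X} := ⟨⟨0, Real.log_nonneg hX⟩⟩
    have h3 : 0 < pointsUpTo a b X := Nat.card_pos
    exact_mod_cast h3.ne'
  -- the coefficient
  have hBr : 0 < A * regulator g / tors a b ^ 2 := by positivity
  set B : ℂ := ((A * regulator g / tors a b ^ 2 : ℝ) : ℂ) with hB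
  have hB0 : B ≠ 0 := by
    rw [hB]
    exact_mod_cast hBr.ne'
  obtain ⟨m, l, hm, hl, hl0, -, -⟩ := W187.UR.nf_rot hcont
    (show Real.pi / 2 < Real.pi by linarith)
  have hF1 : MeromorphicAt F 1 := by
    have := hmer 1 le_rfl (by norm_num)
    simpa using this
  have hlead := TH129.NFC.mero_lim hF1 hm
  have hlead0 : meromorphicTrailingCoeffAt F 1 ≠ 0 := by
    rw [hl]
    exact_mod_cast hl0
  have hiff : ∀ c : ℝ, Real.pi / 2 < c →
      ((meromorphicOrderAt F 1 = ((r : ℤ) : WithTop ℤ) ∧ meromorphicTrailingCoeffAt F 1 = B) ↔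
        Tendsto (fun X : ℝ => Complex.exp (S (curve a b) c X) / (pointsUpTo a b X : ℂ) ^ 2) atTop
          (𝓝 (Complex.exp (-(r * Lam c)) / (ballVol r ^ 2 * A : ℝ)))) := by
    intro c hc
    have h1 := W187.UR.nf_iff hcont hc r hBr.ne'
    rw [← hB] at h1
    rw [h1, ← TH129.NFC.tendsto_log_iff (fun T : ℝ =>
      Complex.exp (W187.UR.rSum (curve a b) c T) / (T : ℂ) ^ r)]
    have hval : Complex.exp (-(r * Lam c)) / (ballVol r ^ 2 * A : ℝ) =
        Complex.exp (-(r * W187.UR.Lam c)) / B / ((κ ^ 2 : ℝ) : ℂ) := by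
      have hLam : Lam c = W187.UR.Lam c := rfl
      rw [div_div, hLam]
      congr 1
      rw [hB, ← Complex.ofReal_mul, hκ2]
      congr 1
      field_simp
    rw [hval]
    have hclose : Tendsto (fun X : ℝ => Complex.exp (W187.UR.rSum (curve a b) c (Real.log X) -
        S (curve a b) c X)) atTop (𝓝 1) := by
      have h2 := TH129.NFC.nfFin_close hDc c
      have h3 := (Complex.continuous_exp.tendsto 0).comp h2
      rw [Complex.exp_zero] at h3
      refine h3.congr fun X => ?_
      simp only [Function.comp_apply]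
      rw [S_eq]
    constructor
    · intro h
      have h2 := (h.div hclose one_ne_zero).div hNc hκc
      rw [div_one] at h2
      refine h2.congr' ?_
      filter_upwards [hNpos, eventually_gt_atTop 1] with X h1 h2
      have hl : (Real.log X : ℂ) ≠ 0 := by exact_mod_cast (Real.log_pos h2).ne'
      have h3 := Complex.exp_ne_zero (S (curve a b) c X)
      have h4 := Complex.exp_ne_zero (W187.UR.rSum (curve a b) c (Real.log X))
      simp only [Pi.div_apply]
      rw [Complex.exp_sub]
      field_simp
    · intro h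
      have h1 := (h.mul hNc).mul hclose
      rw [div_mul_cancel₀ _ hκc, mul_one] at h1
      refine h1.congr' ?_
      filter_upwards [hNpos, eventually_gt_atTop 1] with X h1 h2
      have hl : (Real.log X : ℂ) ≠ 0 := by exact_mod_cast (Real.log_pos h2).ne'
      have h3 := Complex.exp_ne_zero (S (curve a b) c X)
      rw [Complex.exp_sub]
      field_simp
  tfae_have 1 → 4 := fun h c hc => (hiff c hc).1 h
  tfae_have 4 → 3 := fun h => ⟨Real.pi, by linarith, h Real.pi (by linarith)⟩
  tfae_have 3 → 1 := fun ⟨c, hc, h⟩ => (hiff c hc).2 h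
  tfae_have 1 → 2 := by
    rintro ⟨h1, h2⟩
    have h3 : m = (r : ℤ) := by
      rw [hm] at h1
      exact_mod_cast h1
    subst h3
    rw [h2] at hlead
    have h4 := hZc.mul hlead
    have h5 : ((tors a b ^ 2 / regulator g : ℝ) : ℂ) * B = A := by
      rw [hB, ← Complex.ofReal_mul]
      congr 1
      field_simp
    rw [h5] at h4
    refine h4.congr' ?_
    filter_upwards [self_mem_nhdsWithin] with s hs
    have hs0 : (s : ℂ) ≠ 0 := by
      have : (0 : ℝ) < s := hs
      exact_mod_cast this.ne'
    rw [zpow_natCast]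
    field_simp
  tfae_have 2 → 1 := by
    intro h
    have h4 := h.div hZc hZlim0
    have h5 : (A : ℂ) / ((tors a b ^ 2 / regulator g : ℝ) : ℂ) = B := by
      rw [hB, ← Complex.ofReal_div]
      congr 1
      field_simp
    rw [h5] at h4
    have h6 : Tendsto (fun s : ℝ => F (1 + s) / (s : ℂ) ^ (r : ℤ)) (𝓝[>] 0) (𝓝 B) := by
      refine h4.congr' ?_
      have hev : ∀ᶠ s : ℝ in 𝓝[>] 0, (heightZeta a b (Real.pi * s) : ℂ) ^ 2 * (s : ℂ) ^ r ≠ 0 :=
        hZc.eventually_ne hZlim0
      filter_upwards [hev] with s hs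
      have h7 := (pow_ne_zero_iff two_ne_zero).1 (left_ne_zero_of_mul hs)
      have h8 := right_ne_zero_of_mul hs
      simp only [Pi.div_apply]
      rw [zpow_natCast]
      field_simp
    obtain ⟨h7, h8⟩ := TH129.NFC.zpow_unique hlead h6 hlead0 hB0
    exact ⟨by rw [hm, h7], h8⟩
  tfae_finish

end Pool.Agent.Results.MP_1a91b9_nt.LeadingTermLaw
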