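import Pool.Agent.TH936.CM.Fin
import Pool.Agent.W192.HL.Ms
import Pool.Agent.W765.HK.Pair
import Pool.Agent.W216.CY.Div
import Pool.Agent.W287.HK.Basic
import Pool.Agent.W571.HK.Cls
import Pool.Agent.W53.HK.Fp
import Pool.Agent.W366.HK.Fpr
import Pool.Agent.W585.HK.LAT
import Pool.Agent.W692.HK.Ker
import Pool.Agent.W584.HK.CNT
import Pool.Agent.W513.HK.Divr
import Pool.Agent.W822.HK.MU
import Pool.Agent.W240.HK.Count
import Pool.Agent.W883.HK.Tail
import Pool.Agent.W930.HK.Mob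
import Pool.Agent.W648.HK.Mainp0
import Pool.Agent.W240.HK.Dualp0
import Pool.Agent.W768.HK.Finn0
import Pool.Agent.W856.HK.Dec
import Pool.Agent.W636.HK.Gauss
import Pool.Agent.W348.HK.Pois
import Pool.Agent.W29.HK.Prod
import Pool.Agent.W283.HK.PW

/-!
# Non-vanishing of the central values of elliptic curves with complex multiplication twisted by all
ray class characters of large order

`R` is the ring of integers of an imaginary quadratic field `K` (any class number), `ψ` a primitive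
Hecke character of `K` of conductor `f` and infinity type `(1, 0)`, `χ` a primitive ray class
character of `K` of conductor `c` prime to `f`.  If the order of `χ` is at least
`N(c) ^ (2/3 + ε)` and `N(c)` is large, then `L(ψ χ, 1) ≠ 0`.

If `E` is an elliptic curve over `K` with complex multiplication by `R` and Hecke character `ψ`, then
`L(E / K, χ, s) = L(ψ χ, s) L(conj ψ χ, s)` and `L(conj ψ χ, 1) = conj L(ψ conj χ, 1)`.

The averages over the Galois conjugates of `χ` come from the starting library (project HK) and from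
`Pool.Agent.TH936.HK`.  New here: `L(ψ χ, 1)` is expressed by values of elliptic functions at torsion
points, and an automorphism of the complex numbers over a number field depending only on `ψ` takes the
expression for `χ` to a non-zero multiple of the expression for `χ ^ a` (`Pool.Agent.TH936.CM`).
-/

set_option autoImplicit false

open Complex

namespace Pool.Agent.Results.MP_1a91b9_nt.RayClassTwistsCM

/-- The norm `N(I)` of an ideal (`0` for the zero ideal, whose residue ring is infinite). -/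
noncomputable def norm {R : Subring ℂ} (I : Ideal R) : ℝ := (Nat.card (R ⧸ I) : ℝ)

/-- `ψ`, a function on the ideals of `R`, is a primitive Hecke character of conductor `f` and infinity
type `(n, 0)`: it is multiplicative, vanishes exactly at the zero ideal and the ideals not prime to
`f`, satisfies `ψ((α)) = α ^ n` for `α ≡ 1 mod f`, and this fails for every strictly larger ideal `f'`
in place of `f`.  For `n = 0` these are the primitive ray class characters of conductor `f`. -/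
structure IsHecke {R : Subring ℂ} (n : ℕ) (f : Ideal R) (ψ : Ideal R → ℂ) : Prop where
  ne_bot : f ≠ ⊥
  mul : ∀ I J : Ideal R, ψ (I * J) = ψ I * ψ J
  eq_zero : ∀ I : Ideal R, ψ I = 0 ↔ (I = ⊥ ∨ ¬ IsCoprime I f)
  principal : ∀ α : R, α ≠ 0 → α - 1 ∈ f → ψ (Ideal.span {α}) = (α : ℂ) ^ n
  primitive : ∀ f' : Ideal R, f < f' → ∃ α : R, α ≠ 0 ∧ α - 1 ∈ f' ∧ IsCoprime (Ideal.span {α}) f ∧
    ψ (Ideal.span {α}) ≠ (α : ℂ) ^ n

/-- `d` is the order of `χ`: the least positive integer with `χ(I) ^ d = 1` whenever `χ(I) ≠ 0`. -/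
def IsOrder {R : Subring ℂ} (χ : Ideal R → ℂ) (d : ℕ) : Prop :=
  IsLeast {n : ℕ | 0 < n ∧ ∀ I : Ideal R, χ I ≠ 0 → χ I ^ n = 1} d

theorem isHecke_iff {R : Subring ℂ} (n : ℕ) (f : Ideal R) (ψ : Ideal R → ℂ) :
    IsHecke n f ψ ↔ Pool.Agent.W192.HK.HC n f ψ :=
  ⟨fun h => ⟨h.ne_bot, h.mul, h.eq_zero, h.principal, h.primitive⟩,
    fun h => ⟨h.ne, h.mul, h.zero, h.princ, h.prim⟩⟩

theorem isOrder_iff {R : Subring ℂ} (χ : Ideal R → ℂ) (d : ℕ) :
    IsOrder χ d ↔ Pool.Agent.W192.HK.Od χ d :=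
  ⟨fun h => ⟨h.1.1, h.1.2, fun _ hn h' => h.2 ⟨hn, h'⟩⟩,
    fun h => ⟨⟨h.pos, h.pow⟩, fun _ hn => h.least _ hn.1 hn.2⟩⟩

/-- **Main theorem.** Let `R = ℤ + ℤ ω` be a subring of `ℂ` that is a lattice and a Dedekind domain
and `ψ` a primitive Hecke character of conductor `f` and infinity type `(1, 0)` on the ideals of `R`.
For every primitive ray class character `χ` of conductor `c` prime to `f` there is an entire function
`L c χ` which for `Re s > 3/2` is `∑ ψ(I) χ(I) N(I)^(-s)`, such that for every `ε > 0` there is `N₀`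
with `L c χ 1 ≠ 0` for all `c` with `N(c) ≥ N₀` and all `χ` of order at least `N(c)^(2/3 + ε)`. -/
theorem result (R : Subring ℂ) (ω : ℂ) (hω : 0 < ω.im)
    (hR : ∀ z : ℂ, z ∈ R ↔ ∃ x y : ℤ, z = x + y * ω) (hded : IsDedekindDomain R)
    (f : Ideal R) (ψ : Ideal R → ℂ) (hψ : IsHecke 1 f ψ) :
    ∃ L : Ideal R → (Ideal R → ℂ) → ℂ → ℂ,
      (∀ (c : Ideal R) (χ : Ideal R → ℂ), IsCoprime f c → IsHecke 0 c χ →
        Differentiable ℂ (L c χ) ∧ ∀ s : ℂ, 3 / 2 < s.re →
          HasSum (fun I : Ideal R => ψ I * χ I * (norm I : ℂ) ^ (-s)) (L c χ s)) ∧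
      ∀ ε : ℝ, 0 < ε → ∃ N0 : ℝ, ∀ (c : Ideal R) (χ : Ideal R → ℂ),
        IsCoprime f c → IsHecke 0 c χ → N0 ≤ norm c → ∀ d : ℕ, IsOrder χ d →
          (norm c) ^ (2 / 3 + ε) ≤ d → L c χ 1 ≠ 0 := by
  classical
  have hbasic := Pool.Agent.W287.HK.h_basic
  have hcls := Pool.Agent.W571.HK.h_cls hbasic
  have hfp := Pool.Agent.W53.HK.h_fp hbasic hcls
  have hfpr := Pool.Agent.W366.HK.h_fpr hbasic hcls
  have hlat := Pool.Agent.W585.HK.h_lat hbasic
  have hker := Pool.Agent.W692.HK.h_ker hbasic hcls hfpr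
  have hcnt := Pool.Agent.W584.HK.h_cnt hbasic hcls hfpr hlat hker
  have hdivr := Pool.Agent.W513.HK.h_divr hbasic
  have hmu := Pool.Agent.W822.HK.h_mu hbasic
  have hcount := Pool.Agent.W240.HK.h_count hbasic hcnt hdivr
  have htail := Pool.Agent.W883.HK.h_tail hbasic hcnt hcount
  have hmob := Pool.Agent.W930.HK.h_mob
  have hdiv := Pool.Agent.W216.CY.t_div
  have hmain := Pool.Agent.W648.HK.Mainp0.n_mainp hbasic hcnt hdivr htail hmob hdiv
  have hdual := Pool.Agent.W240.HK.n_dualp hdiv hbasic hcnt hker hmob hfpr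
  have hfinn := Pool.Agent.TH936.HK.h_finn
    (Pool.Agent.W768.HK.Finn0.n_finn hdiv hbasic hcnt hmu hmob hmain hdual hfpr)
  have hpair := Pool.Agent.W765.HK.l_pair hbasic hcls hfpr hker
  have hms := Pool.Agent.W192.HL.ms hbasic hcnt hpair hfpr
  have hdec := Pool.Agent.W856.HK.h_dec hbasic
  have hgauss := Pool.Agent.W636.HK.h_gauss hbasic hfp
  have hpois := Pool.Agent.W348.HK.h_pois hbasic
  have htheta := Pool.Agent.TH936.HK.h_theta hbasic hfp hdec hgauss hpois hcnt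
  have hafe := Pool.Agent.TH936.HK.h_afe hbasic hfp hcnt hgauss htheta
  have hprod := Pool.Agent.W29.HK.h_prod hbasic hfp
  have hpw := Pool.Agent.W283.HK.PW.h_pw hbasic
  have hQ : Pool.Agent.W192.HK.QR R ω := ⟨hω, hR, hded⟩
  have hψ' : Pool.Agent.W192.HK.HC 1 f ψ := (isHecke_iff _ _ _).1 hψ
  obtain ⟨L, h1, h2, -, -, h5⟩ := Pool.Agent.TH936.HK.asmK hdiv hbasic hcls hcnt hmu hmob hmain
    hdual hfpr hfp hafe hfinn hms hgauss hprod hpw hQ 1 le_rfl f ψ hψ'
  obtain ⟨M, hM, hequi⟩ := Pool.Agent.TH936.CM.equi hbasic hfp hcnt hdec hafe hcls hprod hpw hQ hψ'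
  have hIsL : ∀ (c : Ideal R) (χ : Ideal R → ℂ), IsCoprime f c →
      Pool.Agent.W192.HK.HC 0 c χ → Pool.Agent.TH936.CM.IsL ψ χ (L c χ) := by
    intro c χ hc hχ
    obtain ⟨g1, g2⟩ := h1 c χ hc hχ
    refine ⟨g1, fun z hz => g2 z ?_⟩
    push_cast
    linarith
  have hmain1 : ∀ ε : ℝ, 0 < ε → ∃ N0 : ℝ, ∀ (c : Ideal R) (χ : Ideal R → ℂ),
      IsCoprime f c → Pool.Agent.W192.HK.HC 0 c χ → N0 ≤ Pool.Agent.W192.HK.nm c →
        ∀ d : ℕ, Pool.Agent.W192.HK.Od χ d →
          (Pool.Agent.W192.HK.nm c) ^ (2 / 3 + ε) ≤ d → L c χ 1 ≠ 0 := by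
    intro ε hε
    obtain ⟨N0, hN0⟩ := h5 M hM ε hε
    refine ⟨N0, fun c χ hc hχ hN d hd hdN h0 => ?_⟩
    obtain ⟨a, ha0, ha1, ha2, ha3⟩ := hN0 c χ hc hχ hN d hd hdN
    have hχa := h2 c χ hχ d hd a ha1
    have h6 := (hequi c χ hc hχ d hd a ha1 ha2 _ _ (hIsL c χ hc hχ)
      (hIsL c _ hc hχa)).1 h0
    have h7 : L c (Pool.Agent.W192.HK.pw χ a) ((1 : ℕ) : ℂ) = 0 := by
      rw [Nat.cast_one]
      exact h6
    rw [h7, norm_zero] at ha3
    have h8 : (0 : ℝ) < Pool.Agent.W192.HK.nm c :=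
      lt_of_lt_of_le one_pos ((hbasic R ω hQ).2.2.1 c hχ.ne)
    have h9 := Real.rpow_pos_of_pos h8 (-ε)
    linarith
  refine ⟨L, fun c χ hc hχ => ?_, fun ε hε => ?_⟩
  · obtain ⟨g1, g2⟩ := hIsL c χ hc ((isHecke_iff _ _ _).1 hχ)
    exact ⟨g1, g2⟩
  · obtain ⟨N0, hN0⟩ := hmain1 ε hε
    exact ⟨N0, fun c χ hc hχ hN d hd hdN =>
      hN0 c χ hc ((isHecke_iff _ _ _).1 hχ) hN d ((isOrder_iff _ _).1 hd) hdN⟩

end Pool.Agent.Results.MP_1a91b9_nt.RayClassTwistsCM
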