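import Pool.Agent.TH942.ES.Curve

/-!
# Numerical laws, analytic continuation, rank form and zero-free sectors over number fields

Let `K` be a number field, `E : y² = x³ + a x + b` an elliptic curve, `a, b ∈ 𝓞 K`, `L` its incomplete
`L`-series (initially defined for `Re s > 3/2`), `N_v` the number of affine points modulo a prime
`v ∤ 6 (4 a³ + 27 b²)`, `q_v` the norm of `v`, and `N(X)` the number of `K`-rational points of `E` whose
`x`-coordinate has height at most `X`, so that `N(X)² ≍ (log X)^rank`.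

For `ρ > 1` let `w_ρ(u) = (2π)⁻¹ ∫ Re (exp (z - u z^(1/ρ)) / z) dt`, `z = 1 + i t`, and

`Π_ρ(X) = ∏_{q_v ≤ exp ((log X)^ρ')} ((N_v + 1)/q_v) ^ w_ρ(log q_v / log X)`,   `ρ' > ρ`.

Without any assumption on the analytic continuation of `L` it is shown that

* `log Π_ρ(X) = O(exp (ε (log X)^ρ))` for all `ε > 0` if and only if `L` extends to a holomorphic function
  without zeros in the sector `|arg (s - 1)| < π / (2ρ)`;
* if `N(X)² ≍ Π_ρ(X)`, then moreover `|L(1 + x)| ≍ x^rank` for `x → 0+`;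
* if `N(X)² ≍ Π_ρ(X)` for all `ρ > 1`, then `L` extends to a holomorphic function without zeros for
  `Re s > 1`, and `|L(1 + x)| ≍ x^rank`.

If `L` is known to extend to a function `F` which is holomorphic for `Re s > 1` and at `s = 1`, then
`N(X)² ≍ Π_ρ(X)` if and only if `log (N(X)² / Π_ρ(X)) = o(log log X)`, if and only if the order of `F` at
`s = 1` is the rank and `F` has no zeros `s ≠ 1` in the sector `|arg (s - 1)| < π / (2ρ)`.
-/

set_option autoImplicit false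

namespace Pool.Agent.Results.MP_1a91b9_nt.SectorLaw

open Filter Topology NumberField IsDedekindDomain
open Pool.Agent.TH942.SL (Sect exists_root mem_sector re_of_sector)
open Pool.Agent.TH942.ES

section definitions

variable {K : Type} [Field K] [NumberField K]

open Classical in
/-- The rank of the group of `K`-rational points of `y² = x³ + a x + b`. -/
noncomputable def rank (a b : 𝓞 K) : ℕ :=
  Module.finrank ℤ
    (WeierstrassCurve.Affine.Point
      (WeierstrassCurve.toAffine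
        ({ a₁ := 0, a₂ := 0, a₃ := 0, a₄ := (a : K), a₆ := (b : K) } : WeierstrassCurve K)))

/-- The number of `K`-rational points of `y² = x³ + a x + b`, the point at infinity included, whose
`x`-coordinate has (multiplicative, relative to `K`) height at most `X`. -/
noncomputable def pointsUpTo (a b : 𝓞 K) (X : ℝ) : ℕ :=
  Nat.card {P : K × K // P.2 ^ 2 = P.1 ^ 3 + a * P.1 + b ∧ Height.mulHeight₁ P.1 ≤ X} + 1

/-- The norm `q_v` of a prime. -/
noncomputable def q (v : HeightOneSpectrum (𝓞 K)) : ℕ := Ideal.absNorm v.asIdeal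

/-- The primes which do not divide `6 (4 a³ + 27 b²)`. -/
def Good (a b : 𝓞 K) (v : HeightOneSpectrum (𝓞 K)) : Prop :=
  6 * (4 * a ^ 3 + 27 * b ^ 2) ∉ v.asIdeal

/-- The number `N_v` of affine points modulo `v`. -/
noncomputable def pointCount (a b : 𝓞 K) (v : HeightOneSpectrum (𝓞 K)) : ℕ :=
  Nat.card {P : (𝓞 K ⧸ v.asIdeal) × (𝓞 K ⧸ v.asIdeal) //
    P.2 ^ 2 = P.1 ^ 3 + Ideal.Quotient.mk v.asIdeal a * P.1 + Ideal.Quotient.mk v.asIdeal b}

/-- The incomplete `L`-series, the product of `(1 - (q_v - N_v) q_v^{-s} + q_v^{1 - 2 s})⁻¹`; it is used for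
`Re s > 3/2`, where the product converges absolutely. -/
noncomputable def L (a b : 𝓞 K) (s : ℂ) : ℂ :=
  ∏' v : {v // Good a b v},
    (1 - ((q v.1 : ℂ) - pointCount a b v.1) * (q v.1 : ℂ) ^ (-s) + (q v.1 : ℂ) ^ (1 - 2 * s))⁻¹

/-- The weight `w_ρ(u) = (2π)⁻¹ ∫ Re (exp (z - u z^(1/ρ)) / z) dt`, `z = 1 + i t`. -/
noncomputable def weight (ρ u : ℝ) : ℝ :=
  (2 * Real.pi)⁻¹ * ∫ t : ℝ, (Complex.exp ((1 + t * Complex.I) -
    u * (1 + t * Complex.I) ^ ((ρ⁻¹ : ℝ) : ℂ)) / (1 + t * Complex.I)).re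

/-- `Π_ρ(X)`: the product over the good primes with `q_v ≤ exp ((log X)^ρ')` of the powers of
`(N_v + 1) / q_v` with exponents `w_ρ(log q_v / log X)`. -/
noncomputable def localProduct (a b : 𝓞 K) (ρ ρ' X : ℝ) : ℝ :=
  ∏ᶠ (v : {v // Good a b v}) (_ : (q v.1 : ℝ) ≤ Real.exp (Real.log X ^ ρ')),
    (((pointCount a b v.1 : ℝ) + 1) / q v.1) ^ weight ρ (Real.log (q v.1) / Real.log X)

/-- The law `N(X)² ≍ Π_ρ(X)`. -/
def Law (a b : 𝓞 K) (ρ ρ' : ℝ) : Prop :=
  ∃ A B : ℝ, 0 < A ∧ 0 < B ∧ ∀ᶠ X : ℝ in atTop,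
    A * localProduct a b ρ ρ' X ≤ (pointsUpTo a b X : ℝ) ^ 2 ∧
    (pointsUpTo a b X : ℝ) ^ 2 ≤ B * localProduct a b ρ ρ' X

/-- The sector `|arg (s - 1)| < π / (2ρ)`. -/
def Sector (ρ : ℝ) : Set ℂ := {s | s ≠ 1 ∧ |(s - 1).arg| < Real.pi / (2 * ρ)}

/-- `G` is holomorphic and has no zeros on the union of `U` and the half plane `Re s > 3/2`, where it is
equal to `L`. -/
def ZeroFreeContinuation (a b : 𝓞 K) (U : Set ℂ) (G : ℂ → ℂ) : Prop :=
  (∀ s : ℂ, s ∈ U ∨ 3 / 2 < s.re → DifferentiableAt ℂ G s ∧ G s ≠ 0) ∧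
    ∀ s : ℂ, 3 / 2 < s.re → G s = L a b s

/-- `|G(1 + x)| ≍ x^r` for `0 < x ≤ 1`. -/
def HasSize (G : ℂ → ℂ) (r : ℕ) : Prop :=
  ∃ A B : ℝ, 0 < A ∧ 0 < B ∧ ∀ x : ℝ, 0 < x → x ≤ 1 →
    A * x ^ r ≤ ‖G (1 + x)‖ ∧ ‖G (1 + x)‖ ≤ B * x ^ r

/-- `F` is holomorphic for `Re s > 1` and at `s = 1`, and is equal to `L` for `Re s > 3/2`. -/
def Continues (a b : 𝓞 K) (F : ℂ → ℂ) : Prop :=
  (∀ s : ℂ, 1 < s.re → DifferentiableAt ℂ F s) ∧ AnalyticAt ℂ F 1 ∧
    ∀ s : ℂ, 3 / 2 < s.re → F s = L a b s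

end definitions

section proofs

variable {K : Type} [Field K] [NumberField K] {a b : 𝓞 K} {F : ℂ → ℂ}

theorem L_eq (s : ℂ) : L a b s = LV a b s := rfl

theorem Continues.isCont (h : Continues a b F) : IsCont a b F := ⟨h.1, h.2.1, h.2.2⟩

/-- the set of primes of bounded norm -/
theorem fin_le (a b : 𝓞 K) (Y : ℝ) : {v : {v // Good a b v} | (q v.1 : ℝ) ≤ Y}.Finite :=
  (sysV a b).fin_le Y

theorem factor_pos (v : {v // Good a b v}) : 0 < ((pointCount a b v.1 : ℝ) + 1) / q v.1 := by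
  have hp0 : (0 : ℝ) < q v.1 := (sysV a b).Npos v
  positivity

theorem localProduct_eq (a b : 𝓞 K) (ρ ρ' X : ℝ) : localProduct a b ρ ρ' X =
    ∏ v ∈ (fin_le a b (Real.exp (Real.log X ^ ρ'))).toFinset,
      (((pointCount a b v.1 : ℝ) + 1) / q v.1) ^ weight ρ (Real.log (q v.1) / Real.log X) :=
  finprod_mem_eq_finite_toFinset_prod
    (fun v : {v // Good a b v} =>
      (((pointCount a b v.1 : ℝ) + 1) / q v.1) ^ weight ρ (Real.log (q v.1) / Real.log X))
    (fin_le a b (Real.exp (Real.log X ^ ρ')))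

theorem localProduct_pos (a b : 𝓞 K) (ρ ρ' X : ℝ) : 0 < localProduct a b ρ ρ' X := by
  rw [localProduct_eq]
  exact Finset.prod_pos fun v _ => Real.rpow_pos_of_pos (factor_pos v) _

theorem log_localProduct (a b : 𝓞 K) (ρ ρ' X : ℝ) :
    Real.log (localProduct a b ρ ρ' X) = SrE (nV a b) (alV a b) ρ ρ' X := by
  have e4 : SrE (nV a b) (alV a b) ρ ρ' X =
      ∑ v ∈ (fin_le a b (Real.exp (Real.log X ^ ρ'))).toFinset,
        Pool.Agent.TH942.SL.wml ρ⁻¹ (Real.log (nV a b v) / Real.log X) *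
          cv (nV a b) (alV a b) v :=
    finsum_mem_eq_finite_toFinset_sum
      (fun v => Pool.Agent.TH942.SL.wml ρ⁻¹ (Real.log (nV a b v) / Real.log X) *
        cv (nV a b) (alV a b) v) (fin_le a b (Real.exp (Real.log X ^ ρ')))
  rw [localProduct_eq, e4, Real.log_prod fun v _ => (Real.rpow_pos_of_pos (factor_pos v) _).ne']
  refine Finset.sum_congr rfl fun v _ => ?_
  rw [Real.log_rpow (factor_pos v)]
  have e5 : cv (nV a b) (alV a b) v = Real.log (((pointCount a b v.1 : ℝ) + 1) / q v.1) :=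
    curve_cv v
  rw [e5]
  rfl

theorem points_bounds (hΔ : 4 * a ^ 3 + 27 * b ^ 2 ≠ 0) :
    ∃ A B X₁ : ℝ, 0 < A ∧ 0 < B ∧ ∀ X : ℝ, X₁ ≤ X →
      A * Real.log X ^ (rank a b : ℝ) ≤ (pointsUpTo a b X : ℝ) ^ 2 ∧
      (pointsUpTo a b X : ℝ) ^ 2 ≤ B * Real.log X ^ (rank a b : ℝ) := by
  classical
  have hD : 4 * (a : K) ^ 3 + 27 * (b : K) ^ 2 ≠ 0 := by
    intro h0
    apply hΔ
    apply FaithfulSMul.algebraMap_injective (𝓞 K) K
    rw [map_zero, map_add, map_mul, map_mul, map_pow, map_pow, map_ofNat, map_ofNat]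
    exact h0
  obtain ⟨κ, hκ, h⟩ := ptsK_growth hD
  have h1 : ∀ᶠ X : ℝ in atTop, κ / 2 < (pointsUpTo a b X : ℝ) /
      (Real.log X) ^ ((rank a b : ℝ) / 2) := h.eventually_const_lt (u := κ / 2) (by linarith)
  have h2 : ∀ᶠ X : ℝ in atTop, (pointsUpTo a b X : ℝ) /
      (Real.log X) ^ ((rank a b : ℝ) / 2) < 2 * κ := h.eventually_lt_const (u := 2 * κ) (by linarith)
  obtain ⟨X₁, hX₁⟩ := (h1.and (h2.and (eventually_gt_atTop 1))).exists_forall_of_atTop
  refine ⟨(κ / 2) ^ 2, (2 * κ) ^ 2, X₁, by positivity, by positivity, fun X hX => ?_⟩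
  obtain ⟨h3, h4, h5⟩ := hX₁ X hX
  have hl : 0 < Real.log X := Real.log_pos h5
  have h6 : 0 < (Real.log X) ^ ((rank a b : ℝ) / 2) := Real.rpow_pos_of_pos hl _
  have h7 : ((Real.log X) ^ ((rank a b : ℝ) / 2)) ^ 2 = Real.log X ^ (rank a b : ℝ) := by
    rw [← Real.rpow_natCast, ← Real.rpow_mul hl.le]
    congr 1
    push_cast
    ring
  rw [lt_div_iff₀ h6] at h3
  rw [div_lt_iff₀ h6] at h4
  rw [← h7, ← mul_pow, ← mul_pow]
  have h8 : (0 : ℝ) ≤ pointsUpTo a b X := Nat.cast_nonneg _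
  constructor
  · exact pow_le_pow_left₀ (by positivity) h3.le 2
  · exact pow_le_pow_left₀ h8 h4.le 2

theorem points_pos (a b : 𝓞 K) (X : ℝ) : 0 < (pointsUpTo a b X : ℝ) ^ 2 := by
  have h1 : 0 < pointsUpTo a b X := Nat.succ_pos _
  have h2 : (0 : ℝ) < pointsUpTo a b X := by exact_mod_cast h1
  positivity

theorem loglog_tendsto : Tendsto (fun X : ℝ => Real.log (Real.log X)) atTop atTop :=
  Real.tendsto_log_atTop.comp Real.tendsto_log_atTop

/-- the logarithm of the number of points -/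
theorem points_log (hΔ : 4 * a ^ 3 + 27 * b ^ 2 ≠ 0) : ∃ C : ℝ, 0 ≤ C ∧
    ∀ᶠ X : ℝ in atTop, |Real.log ((pointsUpTo a b X : ℝ) ^ 2) -
      rank a b * Real.log (Real.log X)| ≤ C := by
  obtain ⟨A, B, X₁, hA, hB, hN⟩ := points_bounds hΔ
  refine ⟨|Real.log A| + |Real.log B|, by positivity, ?_⟩
  filter_upwards [eventually_ge_atTop X₁, eventually_gt_atTop 1] with X h1 h3
  have hl : 0 < Real.log X := Real.log_pos h3
  have hlp : 0 < Real.log X ^ (rank a b : ℝ) := Real.rpow_pos_of_pos hl _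
  obtain ⟨h4, h5⟩ := hN X h1
  have h6 := Real.log_le_log (mul_pos hA hlp) h4
  have h7 := Real.log_le_log (points_pos a b X) h5
  rw [Real.log_mul hA.ne' hlp.ne', Real.log_rpow hl] at h6
  rw [Real.log_mul hB.ne' hlp.ne', Real.log_rpow hl] at h7
  have h8 := neg_abs_le (Real.log A)
  have h9 := le_abs_self (Real.log B)
  have h10 := abs_nonneg (Real.log A)
  have h11 := abs_nonneg (Real.log B)
  rw [abs_le]
  constructor <;> linarith

/-- the logarithm of the ratio -/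
theorem ratio_log (hΔ : 4 * a ^ 3 + 27 * b ^ 2 ≠ 0) (ρ ρ' : ℝ) : ∃ C : ℝ, 0 ≤ C ∧
    ∀ᶠ X : ℝ in atTop, |Real.log ((pointsUpTo a b X : ℝ) ^ 2 / localProduct a b ρ ρ' X) -
      (rank a b * Real.log (Real.log X) - SrE (nV a b) (alV a b) ρ ρ' X)| ≤ C := by
  obtain ⟨C, hC, h⟩ := points_log hΔ
  refine ⟨C, hC, ?_⟩
  filter_upwards [h] with X hX
  rw [Real.log_div (points_pos a b X).ne' (localProduct_pos a b ρ ρ' X).ne', log_localProduct]
  have : Real.log ((pointsUpTo a b X : ℝ) ^ 2) - SrE (nV a b) (alV a b) ρ ρ' X -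
      (rank a b * Real.log (Real.log X) - SrE (nV a b) (alV a b) ρ ρ' X) =
      Real.log ((pointsUpTo a b X : ℝ) ^ 2) - rank a b * Real.log (Real.log X) := by ring
  rwa [this]

/-- the law determines the size of the sum -/
theorem sum_of_law (hΔ : 4 * a ^ 3 + 27 * b ^ 2 ≠ 0) {ρ ρ' : ℝ} (h : Law a b ρ ρ') : ∃ C : ℝ, 0 ≤ C ∧
    ∀ᶠ X : ℝ in atTop, |SrE (nV a b) (alV a b) ρ ρ' X - rank a b * Real.log (Real.log X)| ≤ C := by
  obtain ⟨A, B, hA, hB, h⟩ := h
  obtain ⟨C, hC, h1⟩ := ratio_log hΔ ρ ρ'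
  refine ⟨C + |Real.log A| + |Real.log B|, by positivity, ?_⟩
  filter_upwards [h, h1] with X h2 h3
  have hp := localProduct_pos a b ρ ρ' X
  have h4 := Real.log_le_log hA ((le_div_iff₀ hp).2 h2.1)
  have h5 := Real.log_le_log (div_pos (points_pos a b X) hp) ((div_le_iff₀ hp).2 h2.2)
  have h8 := neg_abs_le (Real.log A)
  have h9 := le_abs_self (Real.log B)
  have h10 := abs_nonneg (Real.log A)
  have h11 := abs_nonneg (Real.log B)
  rw [abs_le] at h3 ⊢
  constructor <;> linarith [h3.1, h3.2]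

/-- slow growth of the sum -/
theorem slow_of_law (hΔ : 4 * a ^ 3 + 27 * b ^ 2 ≠ 0) {ρ ρ' : ℝ} (hρ : 1 < ρ) (h : Law a b ρ ρ')
    (ε : ℝ) (hε : 0 < ε) : ∃ C : ℝ, ∀ᶠ X : ℝ in atTop,
      |SrE (nV a b) (alV a b) ρ ρ' X| ≤ C * Real.exp (ε * Real.log X ^ ρ) := by
  obtain ⟨C, hC, h1⟩ := sum_of_law hΔ h
  refine ⟨rank a b / ε + C, ?_⟩
  filter_upwards [h1, Real.tendsto_log_atTop.eventually_ge_atTop 1] with X h2 h3
  have hT : 0 < Real.log X := by linarith
  have hy : 0 < Real.log X ^ ρ := Real.rpow_pos_of_pos hT _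
  have e1 : Real.log (Real.log X) ≤ Real.log X ^ ρ := by
    have e2 := Real.log_le_sub_one_of_pos hT
    have e3 : Real.log X ≤ Real.log X ^ ρ := by
      conv_lhs => rw [← Real.rpow_one (Real.log X)]
      exact Real.rpow_le_rpow_of_exponent_le h3 hρ.le
    linarith
  have e0 : 0 ≤ Real.log (Real.log X) := Real.log_nonneg h3
  have hr : (0 : ℝ) ≤ rank a b := Nat.cast_nonneg _
  have e4 : ε * Real.log X ^ ρ ≤ Real.exp (ε * Real.log X ^ ρ) := by
    have := Real.add_one_le_exp (ε * Real.log X ^ ρ)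
    linarith
  have e5 : 1 ≤ Real.exp (ε * Real.log X ^ ρ) := Real.one_le_exp (by positivity)
  have e8 : (rank a b : ℝ) * Real.log (Real.log X) ≤
      rank a b / ε * Real.exp (ε * Real.log X ^ ρ) := by
    calc (rank a b : ℝ) * Real.log (Real.log X) ≤ rank a b * Real.log X ^ ρ := by gcongr
      _ = rank a b / ε * (ε * Real.log X ^ ρ) := by field_simp
      _ ≤ _ := by gcongr
  have e9 : C ≤ C * Real.exp (ε * Real.log X ^ ρ) := le_mul_of_one_le_right hC e5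
  have e10 : 0 ≤ (rank a b : ℝ) * Real.log (Real.log X) := by positivity
  rw [add_mul]
  rw [abs_le] at h2 ⊢
  constructor <;> linarith [h2.1, h2.2]

/-- translation of the continuation -/
theorem shift_cont {U : Set ℂ} {G : ℂ → ℂ}
    (h1 : ∀ s : ℂ, s - 1 ∈ U ∨ 1 / 2 < (s - 1).re → DifferentiableAt ℂ G (s - 1) ∧ G (s - 1) ≠ 0)
    (h2 : ∀ s : ℂ, 1 / 2 < s.re → G s = LE (nV a b) (alV a b) s) :
    ZeroFreeContinuation a b {s | s - 1 ∈ U} (fun s => G (s - 1)) := by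
  constructor
  · intro s hs
    obtain ⟨e1, e2⟩ := h1 s (hs.imp id fun h => by
      rw [Complex.sub_re, Complex.one_re]
      linarith)
    exact ⟨DifferentiableAt.comp (f := fun s : ℂ => s - 1) s e1 (by fun_prop), e2⟩
  · intro s hs
    simp only
    rw [h2 _ (by rw [Complex.sub_re, Complex.one_re]; linarith), ← LV_eq, L_eq, add_sub_cancel]

theorem sector_eq (ρ : ℝ) : Sector ρ = {s : ℂ | s - 1 ∈ Sect ρ} := by
  ext s
  simp only [Sector, Sect, Set.mem_ofPred_eq, ne_eq, sub_eq_zero]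

/-- the continuation to a sector -/
theorem cont_of_law (hΔ : 4 * a ^ 3 + 27 * b ^ 2 ≠ 0) {ρ ρ' : ℝ} (hρ : 1 < ρ) (hρ' : ρ < ρ')
    (h : Law a b ρ ρ') : ∃ G : ℂ → ℂ,
      (∀ s : ℂ, s ∈ Sect ρ ∨ 1 / 2 < s.re → DifferentiableAt ℂ G s ∧ G s ≠ 0) ∧
      (∀ s : ℂ, 1 / 2 < s.re → G s = LE (nV a b) (alV a b) s) ∧
      ∃ A B : ℝ, 0 < A ∧ 0 < B ∧ ∀ x : ℝ, 0 < x → x ≤ 1 →
        A * x ^ (rank a b : ℝ) ≤ ‖G x‖ ∧ ‖G x‖ ≤ B * x ^ (rank a b : ℝ) := by
  obtain ⟨G, h1, h2, h3⟩ := (sysV a b).cont_of_small hρ hρ' (slow_of_law hΔ hρ h)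
  obtain ⟨C, hC, h4⟩ := sum_of_law hΔ h
  exact ⟨G, h1, h2, h3 _ C h4⟩

theorem growth (hΔ : 4 * a ^ 3 + 27 * b ^ 2 ≠ 0) (hF : Continues a b F) {ρ ρ' : ℝ} (hρ : 1 < ρ)
    (hρ' : ρ < ρ') {m : ℕ} (hm : analyticOrderAt F 1 = m) (hz : ∀ s ∈ Sector ρ, F s ≠ 0) :
    ∃ C : ℝ, 0 ≤ C ∧ ∀ᶠ X : ℝ in atTop,
      |Real.log ((pointsUpTo a b X : ℝ) ^ 2 / localProduct a b ρ ρ' X) -
        ((rank a b : ℝ) - m) * Real.log (Real.log X)| ≤ C := by
  obtain ⟨C₁, hC₁, h1⟩ := ratio_log hΔ ρ ρ'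
  obtain ⟨C₂, hC₂, h2⟩ := (sysV a b).Sr_up hF.isCont.con hρ hρ' (hF.isCont.ordZero hm)
    (fun s hs1 hs2 => hz (1 + s) (by
      rw [sector_eq, Set.mem_ofPred_eq, add_sub_cancel_left]
      exact ⟨hs1, hs2⟩))
  refine ⟨C₁ + C₂, by positivity, ?_⟩
  filter_upwards [h1, h2] with X h3 h4
  rw [abs_le] at h3 h4 ⊢
  constructor <;> linarith [h3.1, h3.2, h4.1, h4.2]

theorem law_of_sector (hΔ : 4 * a ^ 3 + 27 * b ^ 2 ≠ 0) (hF : Continues a b F) {ρ ρ' : ℝ}
    (hρ : 1 < ρ) (hρ' : ρ < ρ') (hm : analyticOrderAt F 1 = rank a b)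
    (hz : ∀ s ∈ Sector ρ, F s ≠ 0) : Law a b ρ ρ' := by
  obtain ⟨C, hC, h⟩ := growth hΔ hF hρ hρ' hm hz
  refine ⟨Real.exp (-C), Real.exp C, Real.exp_pos _, Real.exp_pos _, ?_⟩
  filter_upwards [h] with X h1
  rw [sub_self, zero_mul, sub_zero, abs_le] at h1
  have hp := localProduct_pos a b ρ ρ' X
  have h2 := div_pos (points_pos a b X) hp
  constructor
  · have := (Real.le_log_iff_exp_le h2).1 h1.1
    rwa [le_div_iff₀ hp] at this
  · have := (Real.log_le_iff_le_exp h2).1 h1.2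
    rwa [div_le_iff₀ hp] at this

theorem small_of_law {ρ ρ' : ℝ} (h : Law a b ρ ρ') :
    Tendsto (fun X : ℝ => Real.log ((pointsUpTo a b X : ℝ) ^ 2 / localProduct a b ρ ρ' X) /
      Real.log (Real.log X)) atTop (𝓝 0) := by
  obtain ⟨A, B, hA, hB, h⟩ := h
  have hlo : Tendsto (fun X : ℝ => Real.log A / Real.log (Real.log X)) atTop (𝓝 0) :=
    tendsto_const_nhds.div_atTop loglog_tendsto
  have hhi : Tendsto (fun X : ℝ => Real.log B / Real.log (Real.log X)) atTop (𝓝 0) :=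
    tendsto_const_nhds.div_atTop loglog_tendsto
  have hpp := localProduct_pos a b ρ ρ'
  refine tendsto_of_tendsto_of_tendsto_of_le_of_le' hlo hhi ?_ ?_
  · filter_upwards [h, loglog_tendsto.eventually (eventually_gt_atTop 0)] with X h1 h2
    apply div_le_div_of_nonneg_right _ h2.le
    exact Real.log_le_log hA ((le_div_iff₀ (hpp X)).2 h1.1)
  · filter_upwards [h, loglog_tendsto.eventually (eventually_gt_atTop 0)] with X h1 h2
    apply div_le_div_of_nonneg_right _ h2.le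
    exact Real.log_le_log (div_pos (points_pos a b X) (hpp X)) ((div_le_iff₀ (hpp X)).2 h1.2)

theorem sector_of_limit (hΔ : 4 * a ^ 3 + 27 * b ^ 2 ≠ 0) (hF : Continues a b F) {ρ ρ' : ℝ}
    (hρ : 1 < ρ) (hρ' : ρ < ρ') (h : Tendsto (fun X : ℝ => Real.log ((pointsUpTo a b X : ℝ) ^ 2 /
      localProduct a b ρ ρ' X) / Real.log (Real.log X)) atTop (𝓝 0)) :
    analyticOrderAt F 1 = rank a b ∧ ∀ s ∈ Sector ρ, F s ≠ 0 := by
  obtain ⟨m, hm⟩ := hF.isCont.order_finite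
  obtain ⟨C₁, hC₁, h1⟩ := ratio_log hΔ ρ ρ'
  have hz : ∀ s ∈ Sector ρ, F s ≠ 0 := by
    have h0 := (sysV a b).sector_of_small hF.isCont.con hρ hρ' (K := 1 + rank a b + C₁) ?_
    · intro s hs
      rw [sector_eq] at hs
      have := h0 (s - 1) hs.1 hs.2
      rwa [add_sub_cancel] at this
    have h2 : ∀ᶠ X : ℝ in atTop, |Real.log ((pointsUpTo a b X : ℝ) ^ 2 /
        localProduct a b ρ ρ' X) / Real.log (Real.log X)| < 1 := by
      refine ((Metric.tendsto_nhds.1 h) 1 one_pos).mono fun X hX => ?_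
      rwa [Real.dist_eq, sub_zero] at hX
    filter_upwards [h1, h2, loglog_tendsto.eventually_ge_atTop 1] with X h3 h4 h5
    have h6 : 0 < Real.log (Real.log X) := by linarith
    rw [abs_div, abs_of_pos h6, div_lt_one h6] at h4
    have hr : (0 : ℝ) ≤ rank a b := Nat.cast_nonneg _
    have h7 : C₁ ≤ C₁ * Real.log (Real.log X) := le_mul_of_one_le_right hC₁ h5
    rw [abs_le] at h3
    rw [abs_lt] at h4
    have h8 : 0 ≤ (rank a b : ℝ) * Real.log (Real.log X) := by positivity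
    rw [abs_le]
    constructor <;> nlinarith [h3.1, h3.2, h4.1, h4.2]
  refine ⟨?_, hz⟩
  obtain ⟨C, hC, h2⟩ := growth hΔ hF hρ hρ' hm hz
  -- the limit determines the exponent
  have h3 : Tendsto (fun X : ℝ => Real.log ((pointsUpTo a b X : ℝ) ^ 2 /
      localProduct a b ρ ρ' X) / Real.log (Real.log X)) atTop (𝓝 ((rank a b : ℝ) - m)) := by
    have h4 : Tendsto (fun X : ℝ => C / Real.log (Real.log X)) atTop (𝓝 0) :=
      tendsto_const_nhds.div_atTop loglog_tendsto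
    rw [tendsto_iff_norm_sub_tendsto_zero]
    refine squeeze_zero' (Eventually.of_forall fun X => norm_nonneg _) ?_ h4
    filter_upwards [h2, loglog_tendsto.eventually_ge_atTop 1] with X h5 h6
    have h7 : 0 < Real.log (Real.log X) := by linarith
    rw [Real.norm_eq_abs]
    have e1 : Real.log ((pointsUpTo a b X : ℝ) ^ 2 / localProduct a b ρ ρ' X) /
        Real.log (Real.log X) - ((rank a b : ℝ) - m) =
        (Real.log ((pointsUpTo a b X : ℝ) ^ 2 / localProduct a b ρ ρ' X) -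
          ((rank a b : ℝ) - m) * Real.log (Real.log X)) / Real.log (Real.log X) := by
      field_simp
    rw [e1, abs_div, abs_of_pos h7]
    exact div_le_div_of_nonneg_right h5 h7.le
  have h4 := tendsto_nhds_unique h3 h
  have h5 : (rank a b : ℝ) = m := by linarith
  have h6 : rank a b = m := by exact_mod_cast h5
  rw [hm, h6]

end proofs

/-- **Numerical laws over number fields.** -/
theorem result (K : Type) [Field K] [NumberField K] (a b : 𝓞 K)
    (hΔ : 4 * a ^ 3 + 27 * b ^ 2 ≠ 0) :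
    -- slow growth of the products is equivalent to the continuation to the sector without zeros
    (∀ ρ ρ' : ℝ, 1 < ρ → ρ < ρ' →
      ((∀ ε : ℝ, 0 < ε → ∃ C : ℝ, ∀ᶠ X : ℝ in atTop,
          |Real.log (localProduct a b ρ ρ' X)| ≤ C * Real.exp (ε * Real.log X ^ ρ)) ↔
        ∃ G : ℂ → ℂ, ZeroFreeContinuation a b (Sector ρ) G)) ∧
    -- a single law implies the continuation to the sector and the order of magnitude at `s = 1`
    (∀ ρ ρ' : ℝ, 1 < ρ → ρ < ρ' → Law a b ρ ρ' →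
        ∃ G : ℂ → ℂ, ZeroFreeContinuation a b (Sector ρ) G ∧ HasSize G (rank a b)) ∧
    -- all laws together imply the continuation to the half plane `Re s > 1`
    ((∀ ρ ρ' : ℝ, 1 < ρ → ρ < ρ' → Law a b ρ ρ') →
        ∃ G : ℂ → ℂ, ZeroFreeContinuation a b {s | 1 < s.re} G ∧ HasSize G (rank a b)) ∧
    -- the equivalence, if `L` is known to be holomorphic for `Re s > 1` and at `s = 1`
    ∀ F : ℂ → ℂ, Continues a b F →
      (∀ ρ ρ' : ℝ, 1 < ρ → ρ < ρ' →
        (List.TFAE [analyticOrderAt F 1 = rank a b ∧ ∀ s ∈ Sector ρ, F s ≠ 0,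
          Law a b ρ ρ',
          Tendsto (fun X : ℝ => Real.log ((pointsUpTo a b X : ℝ) ^ 2 / localProduct a b ρ ρ' X) /
            Real.log (Real.log X)) atTop (𝓝 0)]) ∧
        (∀ m : ℕ, analyticOrderAt F 1 = m → (∀ s ∈ Sector ρ, F s ≠ 0) →
          ∃ A B : ℝ, 0 < A ∧ 0 < B ∧ ∀ᶠ X : ℝ in atTop,
            A * Real.log X ^ ((rank a b : ℝ) - m) ≤
              (pointsUpTo a b X : ℝ) ^ 2 / localProduct a b ρ ρ' X ∧
            (pointsUpTo a b X : ℝ) ^ 2 / localProduct a b ρ ρ' X ≤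
              B * Real.log X ^ ((rank a b : ℝ) - m))) ∧
      ((∀ ρ ρ' : ℝ, 1 < ρ → ρ < ρ' → Law a b ρ ρ') ↔
        analyticOrderAt F 1 = rank a b ∧ ∀ s : ℂ, 1 < s.re → F s ≠ 0) := by
  refine ⟨fun ρ ρ' hρ hρ' => ⟨fun h => ?_, ?_⟩, fun ρ ρ' hρ hρ' h => ?_, fun h => ?_,
    fun F hF => ⟨fun ρ ρ' hρ hρ' => ⟨?_, ?_⟩, ?_, ?_⟩⟩
  · obtain ⟨G, h1, h2, -⟩ := (sysV a b).cont_of_small hρ hρ' (fun ε hε => by
      obtain ⟨C, hC⟩ := h ε hε
      refine ⟨C, hC.mono fun X hX => ?_⟩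
      rwa [log_localProduct] at hX)
    refine ⟨fun s => G (s - 1), ?_⟩
    rw [sector_eq]
    exact shift_cont (fun s hs => h1 _ hs) h2
  · rintro ⟨G, h1, h2⟩ ε hε
    rw [sector_eq] at h1
    obtain ⟨C, hC⟩ := (sysV a b).small_of_cont hρ hρ' (G := fun s => G (1 + s))
      (fun s hs => DifferentiableAt.comp (f := fun s : ℂ => 1 + s) s
        (h1 (1 + s) (Or.inl (by
          rw [Set.mem_ofPred_eq, add_sub_cancel_left]
          exact hs))).1 (by fun_prop))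
      (fun s hs => (h1 (1 + s) (Or.inl (by
          rw [Set.mem_ofPred_eq, add_sub_cancel_left]
          exact hs))).2) (σ := 1 / 2)
      (fun s _ hs2 => by
        rw [h2 _ (by rw [Complex.add_re, Complex.one_re]; linarith), L_eq, LV_eq]) hε
    refine ⟨C, hC.mono fun X hX => ?_⟩
    rwa [log_localProduct]
  · obtain ⟨G, h1, h2, A, B, hA, hB, h3⟩ := cont_of_law hΔ hρ hρ' h
    refine ⟨fun s => G (s - 1), ?_, A, B, hA, hB, fun x hx hx1 => ?_⟩
    · rw [sector_eq]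
      exact shift_cont (fun s hs => h1 _ hs) h2
    · have h4 := h3 x hx hx1
      simp only [add_sub_cancel_left]
      rwa [Real.rpow_natCast] at h4
  · obtain ⟨G, h1, h2⟩ := Sys.glue (L := LE (nV a b) (alV a b)) (fun ρ hρ => by
      obtain ⟨G, h1, h2, -⟩ := cont_of_law hΔ hρ (lt_add_one ρ) (h ρ (ρ + 1) hρ (lt_add_one ρ))
      exact ⟨G, fun s hs => h1 s (Or.inl hs), fun s _ hs => h2 s hs⟩)
    obtain ⟨G₂, h3, h4, A, B, hA, hB, h5⟩ := cont_of_law (ρ := 2) (ρ' := 3) hΔ (by norm_num)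
      (by norm_num) (h 2 3 (by norm_num) (by norm_num))
    have h6 : ∀ s ∈ Sect 2, G s = G₂ s := Sys.agree (by norm_num)
      (fun s hs => (h1 s (Pool.Agent.TH942.SL.sect_re (by norm_num) hs)).1)
      (fun s hs => (h3 s (Or.inl hs)).1) (σ := 1 / 2) fun s _ hs => by rw [h2 s hs, h4 s hs]
    refine ⟨fun s => G (s - 1), ?_, A, B, hA, hB, fun x hx hx1 => ?_⟩
    · have h7 : {s : ℂ | 1 < s.re} = {s : ℂ | s - 1 ∈ {z : ℂ | 0 < z.re}} := by
        ext s
        simp only [Set.mem_ofPred_eq, Complex.sub_re, Complex.one_re, sub_pos]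
      rw [h7]
      refine shift_cont (fun s hs => h1 _ ?_) h2
      rcases hs with hs | hs
      · exact hs
      · linarith
    · have h7 := h5 x hx hx1
      simp only [add_sub_cancel_left]
      rw [h6 _ (Pool.Agent.TH942.SL.sect_real (by norm_num) hx)]
      rwa [Real.rpow_natCast] at h7
  · tfae_have 1 → 2 := fun h => law_of_sector hΔ hF hρ hρ' h.1 h.2
    tfae_have 2 → 3 := fun h => small_of_law h
    tfae_have 3 → 1 := fun h => sector_of_limit hΔ hF hρ hρ' h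
    tfae_finish
  · intro m hm hz
    obtain ⟨C, hC, h⟩ := growth hΔ hF hρ hρ' hm hz
    refine ⟨Real.exp (-C), Real.exp C, Real.exp_pos _, Real.exp_pos _, ?_⟩
    filter_upwards [h, eventually_gt_atTop 1] with X h1 h2
    have hl : 0 < Real.log X := Real.log_pos h2
    have hq := div_pos (points_pos a b X) (localProduct_pos a b ρ ρ' X)
    rw [abs_le] at h1
    have e1 : Real.log X ^ ((rank a b : ℝ) - m) =
        Real.exp (((rank a b : ℝ) - m) * Real.log (Real.log X)) := by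
      rw [Real.rpow_def_of_pos hl, mul_comm]
    rw [e1, ← Real.exp_add, ← Real.exp_add]
    constructor
    · rw [← Real.le_log_iff_exp_le hq]
      linarith [h1.1]
    · rw [← Real.log_le_iff_le_exp hq]
      linarith [h1.2]
  · intro h
    have h1 : ∀ ρ : ℝ, 1 < ρ → analyticOrderAt F 1 = rank a b ∧ ∀ s ∈ Sector ρ, F s ≠ 0 :=
      fun ρ hρ => sector_of_limit hΔ hF hρ (lt_add_one ρ) (small_of_law (h ρ (ρ + 1) hρ (lt_add_one ρ)))
    refine ⟨(h1 2 (by norm_num)).1, fun s hs => ?_⟩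
    obtain ⟨ρ, hρ, h2⟩ := mem_sector hs
    refine (h1 ρ hρ).2 s ⟨fun h3 => ?_, h2⟩
    rw [h3, Complex.one_re] at hs
    exact lt_irrefl _ hs
  · rintro ⟨h1, h2⟩ ρ ρ' hρ hρ'
    exact law_of_sector hΔ hF hρ hρ' h1 fun s hs => h2 s (re_of_sector hρ hs.1 hs.2)

end Pool.Agent.Results.MP_1a91b9_nt.SectorLaw
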